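import Pool.Agent.W586.GZ.Stm

/-!
# GZ-MULT: multiplication operators
-/

set_option autoImplicit false
open Filter Topology

namespace Pool.Agent.W705.GZ.MULT

open Pool.Agent.W586.GZ

lemma coord_sum {S : Set (ℕ →₀ ℚ)} {X : Type} [NormedAddCommGroup X] [NormedSpace ℝ X]
    {e : ℕ → X} {e' : ℕ → (X →L[ℝ] ℝ)} (hM : Model S X e e') (s : Finset ℕ) (b : ℕ → ℝ) (i : ℕ) :
    e' i (∑ n ∈ s, b n • e n) = if i ∈ s then b i else 0 := by
  rw [map_sum]
  have h : ∀ n ∈ s, e' i (b n • e n) = if i = n then b n else 0 := by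
    intro n _
    rw [map_smul, hM.bio, smul_eq_mul]
    split_ifs <;> simp
  rw [Finset.sum_congr rfl h, Finset.sum_ite_eq]

theorem main : S_EXT → S_MULT := by
  intro hE S X _ _ _ e e' hS hM a c hac
  have hc : 0 ≤ c := (abs_nonneg _).trans (hac 0)
  have hbd : ∀ (s : Finset ℕ) (b : ℕ → ℝ),
      ‖∑ n ∈ s, b n • (a n • e n)‖ ≤ c * ‖∑ n ∈ s, b n • e n‖ := by
    intro s b
    set z := ∑ n ∈ s, b n • e n with hz
    have hy : ∑ n ∈ s, b n • (a n • e n) = ∑ n ∈ s, (b n * a n) • e n := by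
      refine Finset.sum_congr rfl fun n _ => ?_
      rw [smul_smul]
    rw [hy]
    have h1 : NB S (fun n => e' n z) ‖z‖ := (hM.nrm z ‖z‖ (norm_nonneg z)).1 le_rfl
    have h2 := h1.smul c
    have h3 : NB S (fun n => e' n (∑ n ∈ s, (b n * a n) • e n)) (|c| * ‖z‖) := by
      refine h2.le hS ?_
      intro i
      rw [coord_sum hM, hz, coord_sum hM]
      split_ifs
      · rw [abs_mul, abs_mul, abs_of_nonneg hc, mul_comm]
        exact mul_le_mul_of_nonneg_right (hac i) (abs_nonneg _)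
      · simp
    rw [abs_of_nonneg hc] at h3
    exact (hM.nrm _ _ (by positivity)).2 h3
  obtain ⟨D, hD, hDn⟩ := hE S X e e' hS hM (fun n => a n • e n) c hc hbd
  refine ⟨D, hD, ?_, hDn⟩
  intro x n
  have h1 := hM.exp x
  have h2 : Tendsto (fun N : ℕ => e' n (D (∑ m ∈ Finset.range N, e' m x • e m))) atTop
      (𝓝 (e' n (D x))) := (((e' n).continuous.comp D.continuous).tendsto x).comp h1
  have h3 : Tendsto (fun N : ℕ => e' n (D (∑ m ∈ Finset.range N, e' m x • e m))) atTop
      (𝓝 (a n * e' n x)) := by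
    refine tendsto_const_nhds.congr' ?_
    filter_upwards [eventually_gt_atTop n] with N hN
    have h4 : D (∑ m ∈ Finset.range N, e' m x • e m) =
        ∑ m ∈ Finset.range N, (e' m x * a m) • e m := by
      rw [map_sum]
      refine Finset.sum_congr rfl fun m _ => ?_
      rw [map_smul, hD m, smul_smul]
    rw [h4, coord_sum hM, if_pos (Finset.mem_range.2 hN), mul_comm]
  exact tendsto_nhds_unique h2 h3

end Pool.Agent.W705.GZ.MULT
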